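import Mathlib
import Pool.Agent.N290.RK.Stm4
import Pool.Agent.N290.RJ.Clo
import Pool.Agent.N655.RJ.LA1

/-!
# Project RK, GlP: gluing of functions near a boundary point (helper551)
-/

set_option autoImplicit false

open Complex MeasureTheory Set Filter Topology
open scoped ENNReal

namespace Pool.Agent.N551.RK

open Pool.Agent.N290.RJ Pool.Agent.N290.RK
open Pool.Agent.N290.R5 (BH Chr gelf)
open Pool.Agent.N342.RJ (bh_add bh_mul bh_const bh_sum chr_sum)
open Pool.Agent.N655.RJ (cs)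

variable {d : ℕ}

theorem nm_cont : Continuous (nm : E d → ℝ) := Real.continuous_sqrt.comp N_continuous

/-- the neighbourhoods of `p` in the ball -/
def O (p : E d) (k : ℕ) : Set (E d) := {z | z ∈ B d ∧ nm (z - p) < 1 / ((k : ℝ) + 1)}

theorem O_open (p : E d) (k : ℕ) : IsOpen (O p k) :=
  B_open.inter (isOpen_lt (nm_cont.comp (continuous_id.sub continuous_const)) continuous_const)

/-- the copies of the neighbourhoods -/
def Om (p : E d) : Set (E d × ℂ) := {q | ∃ k : ℕ, q.1 ∈ O p k ∧ ‖q.2 - (3 * k : ℂ)‖ < 1}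

theorem Om_open (p : E d) : IsOpen (Om p) := by
  have h1 : Om p = ⋃ k : ℕ, ((Prod.fst ⁻¹' (O p k)) ∩
      {q : E d × ℂ | ‖q.2 - (3 * k : ℂ)‖ < 1}) := by
    ext q
    simp [Om]
  rw [h1]
  exact isOpen_iUnion fun k => ((O_open p k).preimage continuous_fst).inter
    (isOpen_lt (by fun_prop) continuous_const)

theorem mem_Om {p : E d} {k : ℕ} {z : E d} (hz : z ∈ O p k) : (z, (3 * k : ℂ)) ∈ Om p :=
  ⟨k, hz, by simp⟩

theorem Om_fst {p : E d} {q : E d × ℂ} (hq : q ∈ Om p) : q.1 ∈ O p (idx q.2) := by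
  obtain ⟨k, h1, h2⟩ := hq
  rwa [idx_eq h2]

theorem gl_diff {p : E d} {s : ℕ → E d → ℂ} (hs : ∀ k, DifferentiableOn ℂ (s k) (O p k)) :
    DifferentiableOn ℂ (glue s) (Om p) := by
  rintro q ⟨k, hq, hk⟩
  have h1 : DifferentiableAt ℂ (fun p : E d × ℂ => s k p.1) q := by
    have h2 : DifferentiableAt ℂ (s k) q.1 := (hs k).differentiableAt ((O_open p k).mem_nhds hq)
    exact h2.comp q differentiableAt_fst
  have h3 : glue s =ᶠ[𝓝 q] fun p : E d × ℂ => s k p.1 := by
    have h4 : {p : E d × ℂ | ‖p.2 - (3 * k : ℂ)‖ < 1} ∈ 𝓝 q :=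
      (isOpen_lt (by fun_prop) continuous_const).mem_nhds hk
    filter_upwards [h4] with p hp
    unfold glue
    rw [idx_eq hp]
  exact (h1.congr_of_eventuallyEq h3).differentiableWithinAt

theorem gl_bh {p : E d} {s : ℕ → E d → ℂ} (C : ℝ)
    (hs : ∀ k, DifferentiableOn ℂ (s k) (O p k))
    (hC : ∀ k, ∀ z ∈ O p k, ‖s k z‖ ≤ C) : BH (Om p) (glue s) :=
  ⟨gl_diff hs, C, fun _ hq => hC _ _ (Om_fst hq)⟩

/-- the function `1 / (k + 1)` -/
noncomputable def T (k : ℕ) (_ : E d) : ℂ := ((1 / ((k : ℝ) + 1) : ℝ) : ℂ)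

theorem T_norm (k : ℕ) (z : E d) : ‖T k z‖ = 1 / ((k : ℝ) + 1) := by
  unfold T
  rw [Complex.norm_real, Real.norm_eq_abs, abs_of_nonneg (by positivity)]

theorem T_bh (p : E d) : BH (Om p) (glue T) := by
  refine gl_bh 1 (fun k => differentiableOn_const _) fun k z _ => ?_
  rw [T_norm, div_le_one (by positivity)]
  have : (0 : ℝ) ≤ k := Nat.cast_nonneg k
  linarith

/-- only the bounds on the far copies matter for the character -/
theorem star {p : E d} {χ : (E d × ℂ → ℂ) → ℂ} (hχ : Chr (Om p) χ) (hT : χ (glue T) = 0)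
    {s : ℕ → E d → ℂ} (C c : ℝ) (hs : ∀ k, DifferentiableOn ℂ (s k) (O p k))
    (hC : ∀ k, ∀ z ∈ O p k, ‖s k z‖ ≤ C) (k₀ : ℕ) (hc : 0 ≤ c)
    (h : ∀ k, k₀ ≤ k → ∀ z ∈ O p k, ‖s k z‖ ≤ c) : ‖χ (glue s)‖ ≤ c := by
  classical
  set s' : ℕ → E d → ℂ := fun k => if k₀ ≤ k then s k else fun _ => 0 with hs'
  set s'' : ℕ → E d → ℂ := fun k => if k₀ ≤ k then fun _ => 0 else fun z => ((k : ℂ) + 1) * s k z
    with hs''
  have e1 : ∀ k, k₀ ≤ k → s' k = s k := fun k hk => by rw [hs']; exact if_pos hk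
  have e2 : ∀ k, ¬ k₀ ≤ k → s' k = fun _ => 0 := fun k hk => by rw [hs']; exact if_neg hk
  have e3 : ∀ k, k₀ ≤ k → s'' k = fun _ => 0 := fun k hk => by rw [hs'']; exact if_pos hk
  have e4 : ∀ k, ¬ k₀ ≤ k → s'' k = fun z => ((k : ℂ) + 1) * s k z :=
    fun k hk => by rw [hs'']; exact if_neg hk
  have b1 : BH (Om p) (glue s') := by
    refine gl_bh |C| (fun k => ?_) fun k z hz => ?_
    · by_cases hk : k₀ ≤ k
      · rw [e1 k hk]; exact hs k
      · rw [e2 k hk]; exact differentiableOn_const _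
    · by_cases hk : k₀ ≤ k
      · rw [e1 k hk]; exact (hC k z hz).trans (le_abs_self _)
      · rw [e2 k hk, norm_zero]; exact abs_nonneg _
  have b2 : BH (Om p) (glue s'') := by
    refine gl_bh (((k₀ : ℝ) + 1) * |C|) (fun k => ?_) fun k z hz => ?_
    · by_cases hk : k₀ ≤ k
      · rw [e3 k hk]; exact differentiableOn_const _
      · rw [e4 k hk]; exact (hs k).const_mul _
    · by_cases hk : k₀ ≤ k
      · rw [e3 k hk, norm_zero]; positivity
      · rw [e4 k hk, norm_mul]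
        have h1 : ‖((k : ℂ) + 1)‖ ≤ (k₀ : ℝ) + 1 := by
          have h2 : ((k : ℂ) + 1) = (((k : ℝ) + 1 : ℝ) : ℂ) := by push_cast; rfl
          rw [h2, Complex.norm_real, Real.norm_eq_abs, abs_of_nonneg (by positivity)]
          have h3 : (k : ℝ) ≤ k₀ := by exact_mod_cast (not_le.1 hk).le
          linarith
        exact mul_le_mul h1 ((hC k z hz).trans (le_abs_self _)) (norm_nonneg _) (by positivity)
  have b0 : BH (Om p) (glue s) := gl_bh C hs hC
  have e5 : χ (glue s) = χ (fun q => glue s' q + glue T q * glue s'' q) := by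
    refine hχ.congr _ _ b0 (bh_add b1 (bh_mul (T_bh p) b2)) fun q _ => ?_
    unfold glue
    by_cases hk : k₀ ≤ idx q.2
    · rw [e1 _ hk, e3 _ hk]
      simp
    · rw [e2 _ hk, e4 _ hk]
      unfold T
      have h1 : ((idx q.2 : ℂ) + 1) ≠ 0 := by
        have : ((idx q.2 : ℂ) + 1) = ((idx q.2 + 1 : ℕ) : ℂ) := by push_cast; rfl
        rw [this]
        exact Nat.cast_ne_zero.2 (Nat.succ_ne_zero _)
      push_cast
      field_simp
      simp
  rw [e5, hχ.add _ _ b1 (bh_mul (T_bh p) b2), hχ.mul _ _ (T_bh p) b2, hT, zero_mul, add_zero]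
  refine hχ.le _ _ b1 hc fun q hq => ?_
  unfold glue
  by_cases hk : k₀ ≤ idx q.2
  · rw [e1 _ hk]; exact h _ hk _ (Om_fst hq)
  · rw [e2 _ hk, norm_zero]; exact hc

/-- the linear form `⟨z, p⟩` -/
noncomputable def ipL (p : E d) : E d →L[ℂ] ℂ :=
  LinearMap.toContinuousLinearMap
    { toFun := fun z => ip z p
      map_add' := fun z z' => ip_add_left z z' p
      map_smul' := fun t z => ip_smul_left t z p }

theorem ipL_apply (p z : E d) : ipL p z = ip z p := rfl

/-- the peak function -/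
noncomputable def ef (p z : E d) : ℂ := 1 - ip z p

theorem ef_diff (p : E d) : Differentiable ℂ (ef p) := by
  have h : ef p = fun z => 1 - ipL p z := rfl
  rw [h]
  exact (differentiable_const _).sub (ipL p).differentiable

theorem ef_fderiv (p z : E d) : fderiv ℂ (ef p) z z = - ip z p := by
  have h : ef p = fun z => 1 - ipL p z := rfl
  rw [h, fderiv_const_sub, ContinuousLinearMap.fderiv, neg_apply, ipL_apply]

theorem nm_p {p : E d} (hp : N p = 1) : nm p = 1 := by
  unfold nm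
  rw [hp, Real.sqrt_one]

theorem ef_eq {p : E d} (hp : N p = 1) (z : E d) : ef p z = - ip (z - p) p := by
  have h1 : ip z p = ip (z - p) p + ip p p := by
    rw [← ip_add_left, sub_add_cancel]
  unfold ef
  rw [h1, ip_self, hp]
  push_cast
  ring

theorem ef_le {p : E d} (hp : N p = 1) (z : E d) : ‖ef p z‖ ≤ nm (z - p) := by
  rw [ef_eq hp, norm_neg]
  have := cs (z - p) p
  rwa [nm_p hp, mul_one] at this

theorem le_ef {p : E d} (hp : N p = 1) {z : E d} (hz : z ∈ B d) :
    nm (z - p) ^ 2 ≤ 2 * ‖ef p z‖ := by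
  have h1 := N_add (z - p) p
  rw [sub_add_cancel] at h1
  have h2 : (ef p z).re ≤ ‖ef p z‖ := Complex.re_le_norm _
  have h3 : (ef p z).re = - (ip (z - p) p).re := by rw [ef_eq hp, Complex.neg_re]
  have h4 : N z < 1 := hz
  rw [nm_sq]
  rw [hp] at h1
  linarith

theorem ip_le_one {p : E d} (hp : N p = 1) {z : E d} (hz : z ∈ B d) : ‖ip z p‖ ≤ 1 := by
  have h1 := cs z p
  rw [nm_p hp, mul_one] at h1
  have h2 := mem_B_nm.1 hz
  linarith

theorem ef_le_two {p : E d} (hp : N p = 1) {z : E d} (hz : z ∈ B d) : ‖ef p z‖ ≤ 2 := by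
  unfold ef
  have h1 := norm_sub_le (1 : ℂ) (ip z p)
  rw [norm_one] at h1
  have h2 := ip_le_one hp hz
  linarith

theorem ne_Om {p : E d} (hp : N p = 1) : (Om p).Nonempty := by
  have h1 : (1 / 2 : ℝ) • p ∈ O p 0 := by
    refine ⟨?_, ?_⟩
    · rw [mem_B, N_smul, hp]
      norm_num
    · have h2 : (1 / 2 : ℝ) • p - p = (-(1 / 2) : ℝ) • p := by
        rw [sub_eq_iff_eq_add, ← sub_eq_iff_eq_add', ← sub_smul]
        norm_num
      unfold nm
      rw [h2, N_smul, hp]
      rw [Real.sqrt_lt' (by norm_num)]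
      norm_num
  exact ⟨_, mem_Om h1⟩

/-- the character vanishes on the peak function -/
theorem chi_ef {p : E d} (hp : N p = 1) {χ : (E d × ℂ → ℂ) → ℂ} (hχ : Chr (Om p) χ)
    (hT : χ (glue T) = 0) : χ (glue fun _ => ef p) = 0 := by
  by_contra hne
  have hpos : 0 < ‖χ (glue fun _ => ef p)‖ := norm_pos_iff.2 hne
  obtain ⟨k₀, hk₀⟩ := exists_nat_one_div_lt (half_pos hpos)
  have h1 := star (s := fun _ => ef p) hχ hT 2 (‖χ (glue fun _ => ef p)‖ / 2)
    (fun k => (ef_diff p).differentiableOn) (fun k z hz => ef_le_two hp hz.1) k₀ (half_pos hpos).le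
    (fun k hk z hz => by
      have h2 := ef_le hp z
      have h3 := hz.2
      have h4 : 1 / ((k : ℝ) + 1) ≤ 1 / ((k₀ : ℝ) + 1) := by
        apply one_div_le_one_div_of_le (by positivity)
        have : (k₀ : ℝ) ≤ k := by exact_mod_cast hk
        linarith
      linarith)
  linarith

/-- the function `t` on `[0,1]` -/
noncomputable def clamp (t : ℝ) : ℝ := max 0 (min t 1)

theorem sdm_clamp : SDM clamp := by
  refine ⟨?_, fun t => le_max_left _ _, ?_⟩
  · intro s t hst
    exact max_le_max le_rfl (min_le_min hst le_rfl)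
  · have h1 : ∫⁻ t in Ioo (0 : ℝ) 1, ENNReal.ofReal (clamp t ^ 2 / t) ≤
        ∫⁻ _t in Ioo (0 : ℝ) 1, 1 := by
      refine setLIntegral_mono' measurableSet_Ioo fun t ht => ?_
      have h2 : clamp t = t := by
        unfold clamp
        rw [min_eq_left ht.2.le, max_eq_right ht.1.le]
      rw [h2, ENNReal.ofReal_le_one, pow_two, mul_div_assoc, div_self ht.1.ne', mul_one]
      exact ht.2.le
    refine lt_of_le_of_lt h1 ?_
    rw [setLIntegral_one, Real.volume_Ioo]
    exact ENNReal.ofReal_lt_top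

end Pool.Agent.N551.RK
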