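import Mathlib
import Pool.Agent.N551.RK.Glu

/-!
# Project RK, GlP: the local form of the theorem (helper551, after helper290)
-/

set_option autoImplicit false

open Complex MeasureTheory Set Filter Topology
open scoped ENNReal

namespace Pool.Agent.N551.RK

open Pool.Agent.N290.RJ Pool.Agent.N290.RK
open Pool.Agent.N290.R5 (BH Chr gelf)
open Pool.Agent.N342.RJ (bh_add bh_mul bh_const bh_sum chr_sum)

variable {d : ℕ}

/-- the family `F_1, ..., F_M, T` -/
noncomputable def fam {M : ℕ} (F : ℕ → Fin M → E d → ℂ) (i : Option (Fin M)) : E d × ℂ → ℂ :=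
  i.elim (glue T) fun j => glue fun k => F k j

/-- no solutions in the algebra -/
theorem no_sol {M : ℕ} {p : E d} {F : ℕ → Fin M → E d → ℂ}
    (ha : ∀ k : ℕ, ¬ ∃ g : Fin M → E d → ℂ, (∀ j, DifferentiableOn ℂ (g j) (O p k)) ∧
      ∀ z ∈ O p k, (∀ j, ‖g j z‖ ≤ (k : ℝ)) ∧ ∑ j, F k j z * g j z = 1) :
    ¬ ∃ g : Option (Fin M) → E d × ℂ → ℂ, (∀ i, BH (Om p) (g i)) ∧
      ∀ z ∈ Om p, ∑ i, fam F i z * g i z = 1 := by
  rintro ⟨g, hg, hg1⟩
  choose C hC using fun i => (hg i).2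
  obtain ⟨D, hD⟩ : ∃ D : ℝ, D = ∑ i, |C i| := ⟨_, rfl⟩
  have hD0 : 0 ≤ D := by rw [hD]; exact Finset.sum_nonneg fun i _ => abs_nonneg _
  have hCD : ∀ i, ∀ q ∈ Om p, ‖g i q‖ ≤ D := by
    intro i q hq
    have h2 := Finset.single_le_sum (f := fun j => |C j|) (fun i _ => abs_nonneg _)
      (Finset.mem_univ i)
    rw [hD]
    exact (hC i q hq).trans ((le_abs_self _).trans h2)
  obtain ⟨k, hk⟩ := exists_nat_ge (2 * D)
  have hmap : MapsTo (fun z : E d => (z, (3 * k : ℂ))) (O p k) (Om p) := fun z hz => mem_Om hz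
  have hgd : ∀ i, DifferentiableOn ℂ (fun z : E d => g i (z, (3 * k : ℂ))) (O p k) := fun i =>
    (hg i).1.comp (by fun_prop) hmap
  have hu : ∀ z ∈ O p k, (1 : ℝ) / 2 ≤ ‖1 - T k z * g none (z, (3 * k : ℂ))‖ := by
    intro z hz
    have h1 : ‖T k z * g none (z, (3 * k : ℂ))‖ ≤ 1 / 2 := by
      rw [norm_mul, T_norm]
      have h2 := hCD none _ (mem_Om hz)
      have h3 : (0 : ℝ) < (k : ℝ) + 1 := by positivity
      rw [one_div, inv_mul_le_iff₀ h3]
      linarith
    have h2 := norm_sub_norm_le (1 : ℂ) (T k z * g none (z, (3 * k : ℂ)))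
    rw [norm_one] at h2
    linarith
  have hu0 : ∀ z ∈ O p k, 1 - T k z * g none (z, (3 * k : ℂ)) ≠ 0 := by
    intro z hz h0
    have := hu z hz
    rw [h0, norm_zero] at this
    linarith
  apply ha k
  refine ⟨fun j z => g (some j) (z, (3 * k : ℂ)) / (1 - T k z * g none (z, (3 * k : ℂ))),
    fun j => ?_, fun z hz => ⟨fun j => ?_, ?_⟩⟩
  · have hden : DifferentiableOn ℂ (fun z : E d => 1 - T k z * g none (z, (3 * k : ℂ)))
        (O p k) :=
      (differentiableOn_const _).sub ((differentiableOn_const _).mul (hgd none))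
    simp only [div_eq_mul_inv]
    exact (hgd (some j)).mul (hden.inv hu0)
  · rw [norm_div, div_le_iff₀ (by linarith [hu z hz])]
    have h1 := hCD (some j) _ (mem_Om hz)
    have h2 := hu z hz
    have h3 : (0 : ℝ) ≤ k := Nat.cast_nonneg k
    nlinarith
  · have h1 := hg1 _ (mem_Om hz)
    rw [Fintype.sum_option] at h1
    have h2 : ∀ j, fam F (some j) (z, (3 * k : ℂ)) = F k j z := by
      intro j
      show F (idx (3 * k : ℂ)) j z = F k j z
      rw [idx_eq (k := k) (by simp)]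
    have h3 : fam F none (z, (3 * k : ℂ)) = T k z := by
      show T (idx (3 * k : ℂ)) z = T k z
      rw [idx_eq (k := k) (by simp)]
    rw [h3] at h1
    have h4 : ∑ j, F k j z * (g (some j) (z, (3 * k : ℂ)) /
        (1 - T k z * g none (z, (3 * k : ℂ)))) =
        (∑ j, fam F (some j) (z, (3 * k : ℂ)) * g (some j) (z, (3 * k : ℂ))) /
        (1 - T k z * g none (z, (3 * k : ℂ))) := by
      rw [Finset.sum_div]
      refine Finset.sum_congr rfl fun j _ => ?_
      rw [h2, mul_div_assoc]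
    rw [h4, div_eq_iff (hu0 z hz), one_mul, ← h1]
    ring

theorem GlP_of (d : ℕ) (h : GlR d) (hL : LOC d) : GlP d := by
  classical
  intro M δ ι F hδ hF1 hF2 hF3 hloc
  refine hL M δ ι F hδ hF1 hF2 hF3 fun p hp => ?_
  obtain ⟨J, ε, A, W, Q, R, hε, hWR, hap⟩ := hloc p hp
  by_contra hno
  have hno' : ∀ k : ℕ, ∃ a, ¬ ∃ g : Fin M → E d → ℂ, (∀ j, DifferentiableOn ℂ (g j) (O p k)) ∧
      ∀ z ∈ O p k, (∀ j, ‖g j z‖ ≤ (k : ℝ)) ∧ ∑ j, F a j z * g j z = 1 := by
    intro k
    by_contra hcon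
    apply hno
    refine ⟨1 / ((k : ℝ) + 1), k, by positivity, fun a => ?_⟩
    obtain ⟨g, hg1, hg2⟩ := by_contra fun hn => hcon ⟨a, hn⟩
    exact ⟨g, hg1, fun z hz hz' => hg2 z ⟨hz, hz'⟩⟩
  choose a ha using hno'
  have hFb : ∀ j, BH (Om p) (glue fun k => F (a k) j) := fun j =>
    gl_bh 1 (fun k => (hF1 _ _).mono fun z hz => hz.1) fun k z hz => hF2 _ _ z hz.1
  obtain ⟨χ, hχ, hχ0⟩ := gelf (Om_open p) (ne_Om hp) (φ := fam fun k => F (a k))
    (by
      intro i
      cases i with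
      | none => exact T_bh p
      | some j => exact hFb j) (no_sol ha)
  have hT : χ (glue T) = 0 := hχ0 none
  have hχF : ∀ j, χ (glue fun k => F (a k) j) = 0 := fun j => hχ0 (some j)
  have he := chi_ef hp hχ hT
  -- the approximants
  obtain ⟨η, hη⟩ : ∃ η : ℝ, η = ε / 4 := ⟨_, rfl⟩
  have hη0 : 0 < η := by rw [hη]; linarith
  obtain ⟨hW, hR⟩ := hWR η hη0
  have hs : ∀ (k : ℕ) (j : Fin M), ∃ s : E d → ℂ, DifferentiableOn ℂ s (B d) ∧
      (∀ z ∈ B d, ‖s z‖ ≤ |Q η|) ∧
      (∀ z ∈ B d, (1 - nm z) * ‖fderiv ℂ s z z‖ ≤ W η (1 - nm z)) ∧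
      (j ∈ J → ∀ z ∈ B d, nm (z - p) < R η → ‖F (a k) j z - s z‖ ≤ η) := by
    intro k j
    by_cases hj : j ∈ J
    · obtain ⟨s, h1, h2, h3, h4⟩ := (hap (a k)).1 j hj η hη0
      exact ⟨s, h1, fun z hz => (h2 z hz).trans (le_abs_self _), h3, fun _ => h4⟩
    · refine ⟨fun _ => 0, differentiableOn_const _, fun z _ => ?_, fun z _ => ?_,
        fun h => absurd h hj⟩
      · rw [norm_zero]; exact abs_nonneg _
      · rw [fderiv_fun_const]
        simpa using hW.2.1 _
  choose s hs1 hs2 hs3 hs4 using hs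
  choose κ hκ1 hκ2 using fun k => (hap (a k)).2
  obtain ⟨c, hcdef⟩ : ∃ c : Fin M → ℂ, c = fun j => χ (glue fun k => s k j) := ⟨_, rfl⟩
  have hcj : ∀ j, χ (glue fun k => s k j) = c j := fun j => by rw [hcdef]
  have hsb : ∀ j, BH (Om p) (glue fun k => s k j) := fun j =>
    gl_bh |Q η| (fun k => (hs1 k j).mono fun z hz => hz.1) fun k z hz => hs2 k j z hz.1
  have hc : ∀ j ∈ J, ‖c j‖ ≤ η := by
    intro j hj
    obtain ⟨k₀, hk₀⟩ := exists_nat_one_div_lt hR
    have e1 : χ (glue fun k z => s k j z + (-1) * F (a k) j z) = c j := by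
      have e0 : (glue fun k z => s k j z + (-1) * F (a k) j z) = fun q : E d × ℂ =>
          (glue fun k => s k j) q + (fun _ => (-1 : ℂ)) q * (glue fun k => F (a k) j) q := rfl
      rw [e0, hχ.add _ _ (hsb j) (bh_mul (bh_const _) (hFb j)),
        hχ.mul (fun _ => -1) (glue fun k => F (a k) j) (bh_const _) (hFb j), hχF j, mul_zero,
        add_zero, hcj]
    rw [← e1]
    refine star hχ hT (|Q η| + 1) η
      (fun k => ((hs1 k j).add ((hF1 _ _).const_mul _)).mono fun z hz => hz.1) (fun k z hz => ?_)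
      k₀ hη0.le fun k hk z hz => ?_
    · refine (norm_add_le _ _).trans (add_le_add (hs2 k j z hz.1) ?_)
      rw [norm_mul, norm_neg, norm_one, one_mul]
      exact hF2 _ _ z hz.1
    · have e2 : s k j z + (-1) * F (a k) j z = -(F (a k) j z - s k j z) := by ring
      rw [e2, norm_neg]
      refine hs4 k j hj z hz.1 ?_
      have h3 := hz.2
      have h4 : 1 / ((k : ℝ) + 1) ≤ 1 / ((k₀ : ℝ) + 1) := by
        apply one_div_le_one_div_of_le (by positivity)
        have : (k₀ : ℝ) ≤ k := by exact_mod_cast hk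
        linarith
      linarith
  -- constants
  obtain ⟨A0, hA0⟩ : ∃ A0 : ℝ, A0 = 1 + |Q η| + ∑ j, ‖c j‖ := ⟨_, rfl⟩
  have hsum0 : 0 ≤ ∑ j, ‖c j‖ := Finset.sum_nonneg fun j _ => norm_nonneg _
  have hA1 : 1 ≤ A0 := by rw [hA0]; linarith [abs_nonneg (Q η)]
  have hA0' : 0 < A0 := by linarith
  have hcA : ∀ j, |Q η| + ‖c j‖ ≤ A0 := by
    intro j
    have := Finset.single_le_sum (f := fun j => ‖c j‖) (fun i _ => norm_nonneg _)
      (Finset.mem_univ j)
    rw [hA0]
    linarith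
  have hAn : ‖((A0 : ℝ) : ℂ)‖ = A0 := by
    rw [Complex.norm_real, Real.norm_eq_abs, abs_of_pos hA0']
  obtain ⟨m, hm⟩ : ∃ m : ℝ, m = min ε (R η) := ⟨_, rfl⟩
  have hm0 : 0 < m := by rw [hm]; exact lt_min hε hR
  have hmε : m ≤ ε := by rw [hm]; exact min_le_left _ _
  have hmR : m ≤ R η := by rw [hm]; exact min_le_right _ _
  obtain ⟨ε', hε'⟩ : ∃ ε' : ℝ, ε' = min (ε / 2 / A0) (m ^ 2 / 4) := ⟨_, rfl⟩
  have hε'0 : 0 < ε' := by rw [hε']; exact lt_min (by positivity) (by positivity)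
  have hε1 : ε' ≤ ε / 2 / A0 := by rw [hε']; exact min_le_left _ _
  have hε2 : ε' ≤ m ^ 2 / 4 := by rw [hε']; exact min_le_right _ _
  have hω : SDM (fun t => (∑ j, (![W η, clamp] : Fin 2 → ℝ → ℝ) j t) / 1) := by
    refine SDM.sum (fun j => ?_) le_rfl
    fin_cases j
    · exact hW
    · exact sdm_clamp
  obtain ⟨C, hC⟩ := h (M + 1) M ε' A _ hε'0 hω
  set f : ℕ → Fin (M + 1) → E d → ℂ := fun k => Fin.cons (fun z => (2 : ℂ)⁻¹ * ef p z)
    fun j z => ((A0 : ℝ) : ℂ)⁻¹ * (s k j z + (-(c j))) with hf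
  set G : ℕ → Fin M → E d → ℂ := fun k l => if l ∈ J then fun _ => 0 else F (a k) l with hG
  have hf0 : ∀ k, f k 0 = fun z => (2 : ℂ)⁻¹ * ef p z := fun k => by simp [hf]
  have hfs : ∀ k j, f k (Fin.succ j) = fun z => ((A0 : ℝ) : ℂ)⁻¹ * (s k j z + (-(c j))) :=
    fun k j => by simp [hf]
  have hG0 : ∀ k l, l ∈ J → G k l = fun _ => 0 := fun k l hl => by rw [hG]; exact if_pos hl
  have hG1 : ∀ k l, l ∉ J → G k l = F (a k) l := fun k l hl => by rw [hG]; exact if_neg hl
  have f1 : ∀ k j, DifferentiableOn ℂ (f k j) (B d) := by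
    intro k j
    induction j using Fin.cases with
    | zero => rw [hf0]; exact ((ef_diff p).differentiableOn).const_mul _
    | succ j => rw [hfs]; exact ((hs1 k j).add_const _).const_mul _
  have hAinv : ‖((A0 : ℝ) : ℂ)⁻¹‖ = A0⁻¹ := by rw [norm_inv, hAn]
  have f2 : ∀ k j, ∀ z ∈ B d, ‖f k j z‖ ≤ 1 := by
    intro k j z hz
    induction j using Fin.cases with
    | zero =>
      rw [hf0]
      simp only [norm_mul, norm_inv, Complex.norm_ofNat]
      have := ef_le_two hp hz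
      linarith
    | succ j =>
      rw [hfs]
      simp only [norm_mul, hAinv]
      rw [inv_mul_le_iff₀ hA0', mul_one]
      refine (norm_add_le _ _).trans ?_
      rw [norm_neg]
      have h1 := hs2 k j z hz
      have h2 := hcA j
      linarith
  have g1 : ∀ k l, DifferentiableOn ℂ (G k l) (B d) := by
    intro k l
    by_cases hl : l ∈ J
    · rw [hG0 k l hl]; exact differentiableOn_const _
    · rw [hG1 k l hl]; exact hF1 _ _
  have g2 : ∀ k l, ∀ z ∈ B d, ‖G k l z‖ ≤ 1 := by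
    intro k l z hz
    by_cases hl : l ∈ J
    · rw [hG0 k l hl, norm_zero]; exact zero_le_one
    · rw [hG1 k l hl]; exact hF2 _ _ z hz
  have hsmall : ∀ k, ∀ z ∈ B d, (∀ j, ‖f k j z‖ < ε') →
      nm (z - p) < ε ∧ ∀ j ∈ J, ‖F (a k) j z‖ < ε := by
    intro k z hz hfz
    have h0 := hfz 0
    rw [hf0] at h0
    simp only [norm_mul, norm_inv, Complex.norm_ofNat] at h0
    have h1 := le_ef hp hz
    have h2 : nm (z - p) < m := by
      have h3 : nm (z - p) ^ 2 < m ^ 2 := by linarith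
      exact lt_of_pow_lt_pow_left₀ 2 hm0.le h3
    refine ⟨lt_of_lt_of_le h2 hmε, fun j hj => ?_⟩
    have h3 := hfz (Fin.succ j)
    rw [hfs] at h3
    simp only [norm_mul, hAinv] at h3
    have h4 : ‖s k j z + (-(c j))‖ < ε / 2 := by
      have h5 : A0⁻¹ * ‖s k j z + (-(c j))‖ < ε / 2 / A0 := lt_of_lt_of_le h3 hε1
      rw [inv_mul_eq_div, div_lt_div_iff_of_pos_right hA0'] at h5
      exact h5
    have h5 := hs4 k j hj z hz (lt_of_lt_of_le h2 hmR)
    have h6 := hc j hj
    have e1 : F (a k) j z = (F (a k) j z - s k j z) + ((s k j z + (-(c j))) + c j) := by ring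
    have h7 := norm_add_le (F (a k) j z - s k j z) ((s k j z + (-(c j))) + c j)
    rw [← e1] at h7
    have h8 := norm_add_le (s k j z + (-(c j))) (c j)
    linarith
  have harb : ∀ k, Arb ε' A (f k) (G k) (κ k) := by
    intro k
    refine ⟨f1 k, f2 k, g1 k, g2 k, fun l => ?_, fun l z hz hfz => ?_, fun z hz hfz => ?_⟩
    · refine (hκ1 k l).mono ?_
      rintro z ⟨hz, hfz⟩
      obtain ⟨h1, h2⟩ := hsmall k z hz hfz
      exact ⟨hz, h1, h2⟩
    · obtain ⟨h1, h2⟩ := hsmall k z hz hfz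
      exact (hκ2 k z hz h1 h2).1 l
    · obtain ⟨h1, h2⟩ := hsmall k z hz hfz
      rw [← (hκ2 k z hz h1 h2).2, ← Finset.sum_add_sum_compl J]
      rw [Finset.sum_eq_zero (s := J), zero_add]
      · refine Finset.sum_congr rfl fun l hl => ?_
        rw [hG1 k l (Finset.mem_compl.1 hl)]
      · intro l hl
        rw [hG0 k l hl, zero_mul]
  have hmod : ∀ k j, ∀ z ∈ B d, (1 - nm z) * ‖fderiv ℂ (f k j) z z‖ ≤
      (fun t => (∑ j, (![W η, clamp] : Fin 2 → ℝ → ℝ) j t) / 1) (1 - nm z) := by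
    intro k j z hz
    have hz1 : 0 < 1 - nm z := by
      have := mem_B_nm.1 hz
      linarith
    have hz2 : 1 - nm z ≤ 1 := by linarith [nm_nonneg z]
    have hcl : clamp (1 - nm z) = 1 - nm z := by
      unfold clamp
      rw [min_eq_left hz2, max_eq_right hz1.le]
    simp only [div_one, Fin.sum_univ_two, Matrix.cons_val_zero, Matrix.cons_val_one]
    rw [hcl]
    have hW0 := hW.2.1 (1 - nm z)
    induction j using Fin.cases with
    | zero =>
      rw [hf0]
      have h1 : fderiv ℂ (fun z => (2 : ℂ)⁻¹ * ef p z) z = (2 : ℂ)⁻¹ • fderiv ℂ (ef p) z :=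
        fderiv_const_mul (ef_diff p z) _
      rw [h1, smul_apply, smul_eq_mul, norm_mul, ef_fderiv, norm_neg, norm_inv,
        Complex.norm_ofNat]
      have h2 := ip_le_one hp hz
      have h3 : (2 : ℝ)⁻¹ * ‖ip z p‖ ≤ 1 := by linarith
      have h4 := mul_le_mul_of_nonneg_left h3 hz1.le
      linarith
    | succ j =>
      rw [hfs]
      have hd : DifferentiableAt ℂ (s k j) z := (hs1 k j).differentiableAt (B_open.mem_nhds hz)
      have h1 : fderiv ℂ (fun z => ((A0 : ℝ) : ℂ)⁻¹ * (s k j z + (-(c j)))) z =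
          ((A0 : ℝ) : ℂ)⁻¹ • fderiv ℂ (s k j) z := by
        rw [fderiv_const_mul (hd.add_const _), fderiv_add_const]
      rw [h1, smul_apply, smul_eq_mul, norm_mul, hAinv]
      have h2 := hs3 k j z hz
      have h3 : A0⁻¹ ≤ 1 := inv_le_one_of_one_le₀ hA1
      have h4 : A0⁻¹ * ‖fderiv ℂ (s k j) z z‖ ≤ ‖fderiv ℂ (s k j) z z‖ := by
        have := norm_nonneg (fderiv ℂ (s k j) z z)
        nlinarith
      have h5 := mul_le_mul_of_nonneg_left h4 hz1.le
      linarith
  have hsol : ∀ k, Sol C (f k) (G k) := fun k => hC _ _ _ (harb k) (hmod k)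
  choose g hh hg1 hh1 hgs using hsol
  -- the contradiction
  have bf : ∀ j, BH (Om p) (glue fun k => f k j) := fun j =>
    gl_bh 1 (fun k => (f1 k j).mono fun z hz => hz.1) fun k z hz => f2 k j z hz.1
  have bG : ∀ l, BH (Om p) (glue fun k => G k l) := fun l =>
    gl_bh 1 (fun k => (g1 k l).mono fun z hz => hz.1) fun k z hz => g2 k l z hz.1
  have bg : ∀ j, BH (Om p) (glue fun k => g k j) := fun j =>
    gl_bh C (fun k => (hg1 k j).mono fun z hz => hz.1) fun k z hz => (hgs k z hz.1).1 j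
  have bh : ∀ l, BH (Om p) (glue fun k => hh k l) := fun l =>
    gl_bh C (fun k => (hh1 k l).mono fun z hz => hz.1) fun k z hz => (hgs k z hz.1).2.1 l
  have cf : ∀ j, χ (glue fun k => f k j) = 0 := by
    intro j
    induction j using Fin.cases with
    | zero =>
      have e0 : (glue fun k => f k 0) = fun q : E d × ℂ => (fun _ => (2 : ℂ)⁻¹) q *
          (glue fun _ => ef p) q := by
        funext q
        show f (idx q.2) 0 q.1 = _
        rw [hf0]
        rfl
      rw [e0, hχ.mul (fun _ => (2 : ℂ)⁻¹) (glue fun _ => ef p) (bh_const _)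
        (gl_bh 2 (fun k => (ef_diff p).differentiableOn) fun k z hz => ef_le_two hp hz.1), he,
        mul_zero]
    | succ j =>
      have e0 : (glue fun k => f k (Fin.succ j)) = fun q : E d × ℂ =>
          (fun _ => ((A0 : ℝ) : ℂ)⁻¹) q *
          (fun q => (glue fun k => s k j) q + (fun _ => -(c j)) q) q := by
        funext q
        show f (idx q.2) (Fin.succ j) q.1 = _
        rw [hfs]
        rfl
      rw [e0, hχ.mul (fun _ => ((A0 : ℝ) : ℂ)⁻¹)
        (fun q => (glue fun k => s k j) q + (fun _ => -(c j)) q) (bh_const _)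
        (bh_add (hsb j) (bh_const _)),
        hχ.add (glue fun k => s k j) (fun _ => -(c j)) (hsb j) (bh_const _), hcj, hχ.const,
        hχ.const, add_neg_cancel, mul_zero]
  have cG : ∀ l, χ (glue fun k => G k l) = 0 := by
    intro l
    by_cases hl : l ∈ J
    · have e0 : (glue fun k => G k l) = fun _ : E d × ℂ => (0 : ℂ) := by
        funext q
        show G (idx q.2) l q.1 = 0
        rw [hG0 _ l hl]
      rw [e0, hχ.const]
    · have e0 : (glue fun k => G k l) = glue fun k => F (a k) l := by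
        funext q
        show G (idx q.2) l q.1 = F (a (idx q.2)) l q.1
        rw [hG1 _ l hl]
      rw [e0, hχF]
  have b1 : BH (Om p) (fun q => ∑ j, (glue fun k => f k j) q * (glue fun k => g k j) q) :=
    bh_sum Finset.univ (fun j => bh_mul (bf j) (bg j))
  have b2 : BH (Om p) (fun q => ∑ l, (glue fun k => G k l) q * (glue fun k => hh k l) q) :=
    bh_sum Finset.univ (fun l => bh_mul (bG l) (bh l))
  have key := hχ.congr _ (fun _ => 1) (bh_add b1 b2) (bh_const 1)
    (fun q hq => (hgs (idx q.2) q.1 (Om_fst hq).1).2.2)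
  rw [hχ.add _ _ b1 b2, chr_sum hχ Finset.univ (fun j => bh_mul (bf j) (bg j)),
    chr_sum hχ Finset.univ (fun l => bh_mul (bG l) (bh l)), hχ.const, Finset.sum_eq_zero,
    Finset.sum_eq_zero, add_zero] at key
  · exact zero_ne_one key
  · intro l _
    rw [hχ.mul _ _ (bG l) (bh l), cG l, zero_mul]
  · intro j _
    rw [hχ.mul _ _ (bf j) (bg j), cf j, zero_mul]

end Pool.Agent.N551.RK
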